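import Mathlib

/-!
Tiles in a cube: the lattices generated by `(m, s, r)`, `(0, n, u)`, `(0, 0, n ℤ^k)` and the box
`[0, 3m) × [0, n) × [0, n)^k`.
-/

set_option autoImplicit false

namespace Run7.h487.TC

variable {m n k : ℕ}

/-- points -/
abbrev V (k : ℕ) := ℤ × ℤ × (Fin k → ℤ)

/-- classes -/
abbrev D (m n k : ℕ) := ZMod m × ZMod n × (Fin k → ZMod n)

/-- the class of a point -/
def cl (m n : ℕ) {k : ℕ} (s : ℤ) (r u : Fin k → ZMod n) (v : V k) : D m n k :=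
  ((v.1 : ZMod m), ((v.2.1 - v.1 / m * s : ℤ) : ZMod n),
    fun l => (v.2.2 l : ZMod n) - ((v.1 / m : ℤ) : ZMod n) * r l -
      (((v.2.1 - v.1 / m * s) / n : ℤ) : ZMod n) * u l)

lemma div_sub {m : ℕ} [NeZero m] {a b : ℤ} (h : (a : ZMod m) = b) :
    (a - b) / m = a / m - b / m ∧ a - b = m * (a / m - b / m) := by
  have h1 : a % m = b % m := (ZMod.intCast_eq_intCast_iff' a b m).1 h
  have h2 := Int.mul_ediv_add_emod a m
  have h3 := Int.mul_ediv_add_emod b m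
  have h4 : a - b = m * (a / m - b / m) := by rw [mul_sub]; linarith
  refine ⟨?_, h4⟩
  rw [h4]
  exact Int.mul_ediv_cancel_left _ (by exact_mod_cast NeZero.ne m)

lemma cl_sub [NeZero m] [NeZero n] {s : ℤ} {r u : Fin k → ZMod n} {v w : V k}
    (h : cl m n s r u v = cl m n s r u w) : cl m n s r u (v - w) = 0 := by
  obtain ⟨x, y, z⟩ := v
  obtain ⟨x', y', z'⟩ := w
  simp only [cl, Prod.mk.injEq] at h
  obtain ⟨h1, h2, h3⟩ := h
  obtain ⟨e1, e2⟩ := div_sub h1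
  obtain ⟨e3, e4⟩ := div_sub h2
  have e5 : (y - y') - (x - x') / m * s = (y - x / m * s) - (y' - x' / m * s) := by
    rw [e1]; ring
  simp only [cl, Prod.mk_sub_mk, Prod.mk_eq_zero]
  refine ⟨?_, ?_, ?_⟩
  · push_cast; rw [h1, sub_self]
  · rw [e5]; push_cast at h2 ⊢; rw [h2, sub_self]
  · funext l
    have h4 := congrFun h3 l
    simp only [Pi.sub_apply, Pi.zero_apply]
    rw [e5, e3, e1]
    push_cast at h4 ⊢
    linear_combination h4

lemma cl_add [NeZero m] [NeZero n] {s : ℤ} {r u : Fin k → ZMod n} (v : V k) {t : V k}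
    (h : cl m n s r u t = 0) : cl m n s r u (v + t) = cl m n s r u v := by
  obtain ⟨x, y, z⟩ := v
  obtain ⟨a, b, c⟩ := t
  simp only [cl, Prod.mk_eq_zero] at h
  obtain ⟨h1, h2, h3⟩ := h
  have hm : (m : ℤ) ≠ 0 := by exact_mod_cast NeZero.ne m
  have hn : (n : ℤ) ≠ 0 := by exact_mod_cast NeZero.ne n
  have d1 : (m : ℤ) ∣ a := (ZMod.intCast_zmod_eq_zero_iff_dvd a m).1 h1
  have d2 : (n : ℤ) ∣ b - a / m * s := (ZMod.intCast_zmod_eq_zero_iff_dvd _ n).1 h2
  have e1 : (x + a) / m = x / m + a / m := Int.add_ediv_of_dvd_right d1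
  have e2 : y + b - (x / m + a / m) * s = (y - x / m * s) + (b - a / m * s) := by ring
  have e3 : ((y - x / m * s) + (b - a / m * s)) / n = (y - x / m * s) / n + (b - a / m * s) / n :=
    Int.add_ediv_of_dvd_right d2
  simp only [cl, Prod.mk_add_mk, Prod.mk.injEq]
  refine ⟨?_, ?_, ?_⟩
  · push_cast; rw [h1, add_zero]
  · rw [e1, e2]; push_cast at h2 ⊢; rw [h2, add_zero]
  · funext l
    have h4 := congrFun h3 l
    simp only [Pi.add_apply, Pi.zero_apply] at h4 ⊢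
    rw [e1, e2, e3]
    push_cast at h4 ⊢
    linear_combination h4

/-- the point of the class `d` whose first coordinate is in `[i m, (i + 1) m)` -/
def E (m n : ℕ) {k : ℕ} (s : ℤ) (r u : Fin k → ZMod n) (i : ℤ) (d : D m n k) : V k :=
  (i * m + (d.1.val : ℤ), ((d.2.1 + ((i * s : ℤ) : ZMod n)).val : ℤ),
    fun l => ((d.2.2 l + (i : ZMod n) * r l +
      (((((d.2.1 + ((i * s : ℤ) : ZMod n)).val : ℤ) - i * s) / n : ℤ) : ZMod n) * u l).val : ℤ))

lemma E_div [NeZero m] (s : ℤ) (r u : Fin k → ZMod n) (i : ℤ) (d : D m n k) :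
    (E m n s r u i d).1 / m = i := by
  have hm : (m : ℤ) ≠ 0 := by exact_mod_cast NeZero.ne m
  have h1 : (d.1.val : ℤ) < m := by exact_mod_cast ZMod.val_lt d.1
  have h0 : (0 : ℤ) ≤ d.1.val := Int.natCast_nonneg _
  simp only [E]
  rw [add_comm, Int.add_mul_ediv_right _ _ hm, Int.ediv_eq_zero_of_lt h0 h1, zero_add]

lemma cl_E [NeZero m] [NeZero n] (s : ℤ) (r u : Fin k → ZMod n) (i : ℤ) (d : D m n k) :
    cl m n s r u (E m n s r u i d) = d := by
  have h := E_div s r u i d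
  obtain ⟨x, y, z⟩ := d
  unfold cl
  rw [h]
  simp only [E, Prod.mk.injEq]
  refine ⟨?_, ?_, ?_⟩
  · push_cast; simp
  · push_cast; simp
  · funext l
    push_cast
    simp only [ZMod.natCast_val, ZMod.cast_id', id_eq]
    ring

/-- the box -/
def Box (m n : ℕ) {k : ℕ} (v : V k) : Prop :=
  (0 ≤ v.1 ∧ v.1 < 3 * m) ∧ (0 ≤ v.2.1 ∧ v.2.1 < n) ∧ ∀ l, 0 ≤ v.2.2 l ∧ v.2.2 l < n

lemma E_box [NeZero m] [NeZero n] (s : ℤ) (r u : Fin k → ZMod n) {i : ℤ} (h0 : 0 ≤ i) (h3 : i < 3)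
    (d : D m n k) : Box m n (E m n s r u i d) := by
  have h1 : (d.1.val : ℤ) < m := by exact_mod_cast ZMod.val_lt d.1
  have h2 : (0 : ℤ) ≤ d.1.val := Int.natCast_nonneg _
  refine ⟨⟨?_, ?_⟩, ⟨Int.natCast_nonneg _, ?_⟩, fun l => ⟨Int.natCast_nonneg _, ?_⟩⟩
  · simp only [E]; positivity
  · simp only [E]
    have : i * m ≤ 2 * m := mul_le_mul_of_nonneg_right (by omega) (by positivity)
    linarith
  · simp only [E]; exact_mod_cast ZMod.val_lt _
  · simp only [E]; exact_mod_cast ZMod.val_lt _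

lemma val_of [NeZero n] {a : ℤ} (h0 : 0 ≤ a) (h1 : a < n) : (((a : ZMod n)).val : ℤ) = a := by
  rw [ZMod.val_intCast]
  exact Int.emod_eq_of_lt h0 h1

lemma E_cl [NeZero m] [NeZero n] (s : ℤ) (r u : Fin k → ZMod n) {v : V k} (hv : Box m n v) :
    E m n s r u (v.1 / m) (cl m n s r u v) = v := by
  obtain ⟨x, y, z⟩ := v
  obtain ⟨⟨h1, h2⟩, ⟨h3, h4⟩, h5⟩ := hv
  simp only at h1 h2 h3 h4 h5
  have e2 : ((((y - x / m * s : ℤ) : ZMod n) + ((x / m * s : ℤ) : ZMod n)).val : ℤ) = y := by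
    rw [← Int.cast_add, sub_add_cancel]
    exact val_of h3 h4
  simp only [E, cl, Prod.mk.injEq]
  refine ⟨?_, e2, ?_⟩
  · rw [ZMod.val_intCast]
    have := Int.mul_ediv_add_emod x m
    linarith
  · funext l
    rw [e2]
    have e3 : ((z l : ZMod n) - ((x / m : ℤ) : ZMod n) * r l -
        (((y - x / m * s) / n : ℤ) : ZMod n) * u l) + ((x / m : ℤ) : ZMod n) * r l +
        (((y - x / m * s) / n : ℤ) : ZMod n) * u l = ((z l : ℤ) : ZMod n) := by ring
    rw [e3]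
    exact val_of (h5 l).1 (h5 l).2

end Run7.h487.TC
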