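import Pool.Agent.Run7.h487.TC.A

/-!
Tiles in a cube: transversals of the classes, and two different lattices.
-/

set_option autoImplicit false

namespace Run7.h487.TC

open Finset

variable {m n k : ℕ}

/-- the second part of a class -/
abbrev W (n k : ℕ) := ZMod n × (Fin k → ZMod n)

/-- choice functions -/
abbrev C (m n k : ℕ) := ZMod m → W n k → Fin 3

/-- the transversal given by a choice function -/
noncomputable def S [NeZero m] [NeZero n] (s : ℤ) (r u : Fin k → ZMod n) (c : C m n k) : Finset (V k) :=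
  (Finset.univ : Finset (D m n k)).image (fun d => E m n s r u ((c d.1 d.2 : ℕ) : ℤ) d)

variable [NeZero m] [NeZero n]

lemma S_cl {s : ℤ} {r u : Fin k → ZMod n} {c : C m n k} {v : V k} (h : v ∈ S s r u c) :
    v = E m n s r u ((c (cl m n s r u v).1 (cl m n s r u v).2 : ℕ) : ℤ) (cl m n s r u v) := by
  obtain ⟨d, -, rfl⟩ := Finset.mem_image.1 h
  rw [cl_E]

lemma E_mem (s : ℤ) (r u : Fin k → ZMod n) (c : C m n k) (d : D m n k) :
    E m n s r u ((c d.1 d.2 : ℕ) : ℤ) d ∈ S s r u c :=
  Finset.mem_image.2 ⟨d, Finset.mem_univ _, rfl⟩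

lemma S_box {s : ℤ} {r u : Fin k → ZMod n} {c : C m n k} {v : V k} (h : v ∈ S s r u c) :
    Box m n v := by
  obtain ⟨d, -, rfl⟩ := Finset.mem_image.1 h
  exact E_box s r u (Int.natCast_nonneg _) (by exact_mod_cast (c d.1 d.2).2) d

lemma mem_S_of {s : ℤ} {r u : Fin k → ZMod n} {c : C m n k} {v : V k} (hv : Box m n v)
    (h : v.1 / m = ((c (cl m n s r u v).1 (cl m n s r u v).2 : ℕ) : ℤ)) : v ∈ S s r u c := by
  rw [← E_cl s r u hv, h]
  exact E_mem s r u c _

lemma S_inj {s : ℤ} {r u : Fin k → ZMod n} {c c' : C m n k} (h : S s r u c = S s r u c') :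
    c = c' := by
  funext x w
  have h1 := E_mem s r u c (x, w)
  rw [h] at h1
  have h2 := S_cl h1
  have h3 := congrArg (fun v : V k => v.1 / m) h2
  simp only [E_div, cl_E] at h3
  exact Fin.ext (by exact_mod_cast h3)

lemma cl_E_zero (s s' : ℤ) (r u r' u' : Fin k → ZMod n) (d : D m n k) :
    cl m n s r u (E m n s' r' u' 0 d) = d := by
  have h := E_div s' r' u' 0 d
  have hn : (0 : ℤ) < n := by exact_mod_cast Nat.pos_of_ne_zero (NeZero.ne n)
  have e : ((d.2.1.val : ℤ)) / n = 0 :=
    Int.ediv_eq_zero_of_lt (Int.natCast_nonneg _) (by exact_mod_cast ZMod.val_lt _)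
  obtain ⟨x, y, z⟩ := d
  simp only at e
  unfold cl
  rw [h]
  simp only [E, Prod.mk.injEq, zero_mul, sub_zero, Int.cast_zero, add_zero, e]
  refine ⟨?_, ?_, ?_⟩
  · push_cast; simp
  · push_cast; simp
  · funext l
    push_cast
    simp

/-- two lattices and a common transversal -/
lemma bad {s s' : ℤ} {r u r' u' : Fin k → ZMod n} {c c' : C m n k}
    (h : S s r u c = S s' r' u' c') (p : D m n k) :
    ¬ (c p.1 p.2 = 0 ∧ c (cl m n s r u (E m n s' r' u' 1 p)).1
      (cl m n s r u (E m n s' r' u' 1 p)).2 = 1) := by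
  rintro ⟨h0, h1⟩
  have m1 : E m n s' r' u' 0 p ∈ S s r u c := by
    apply mem_S_of (E_box s' r' u' le_rfl (by norm_num) p)
    rw [E_div, cl_E_zero, h0]
    simp
  have m2 : E m n s' r' u' 1 p ∈ S s r u c := by
    apply mem_S_of (E_box s' r' u' (by norm_num) (by norm_num) p)
    rw [E_div, h1]
    simp
  rw [h] at m1 m2
  have e1 := S_cl m1
  have e2 := S_cl m2
  rw [cl_E] at e1 e2
  have e3 := congrArg (fun v : V k => v.1 / m) (e1.trans e2.symm)
  simp only [E_div] at e3
  norm_num at e3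

/-- the class in the first lattice of a point of the middle third -/
def wv (n : ℕ) {k : ℕ} (s : ℤ) (r u : Fin k → ZMod n) (s' : ℤ) (r' u' : Fin k → ZMod n) (y : ZMod n) :
    W n k :=
  ((((y + (s' : ZMod n)).val - s : ℤ) : ZMod n),
    fun l => (0 + r' l + (((((y + (s' : ZMod n)).val : ℤ) - s') / n : ℤ) : ZMod n) * u' l) - r l -
      (((((y + (s' : ZMod n)).val : ℤ) - s) / n : ℤ) : ZMod n) * u l)

lemma cl_E_one (s s' : ℤ) (r u r' u' : Fin k → ZMod n) (x : ZMod m) (y : ZMod n) :
    cl m n s r u (E m n s' r' u' 1 (x, y, 0)) = (x, wv n s r u s' r' u' y) := by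
  have h := E_div s' r' u' 1 ((x, y, 0) : D m n k)
  unfold cl
  rw [h]
  simp only [E, wv, Prod.mk.injEq, one_mul, Int.cast_one]
  refine ⟨?_, trivial, ?_⟩
  · push_cast; simp
  · funext l
    push_cast
    simp

/-- different parameters are distinguished -/
lemma wv_ne {s s' : ℤ} (hs : 1 ≤ s) (hs1 : s < n) (hs' : 1 ≤ s') (hs1' : s' < n)
    {r u r' u' : Fin k → ZMod n} (h : ¬ (s = s' ∧ r = r' ∧ u = u')) :
    ∃ y : ZMod n, ((y, 0) : W n k) ≠ wv n s r u s' r' u' y := by
  have hv : ∀ a : ℤ, 0 ≤ a → a < n → (((a : ZMod n)).val : ℤ) = a := fun a h0 h1 => val_of h0 h1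
  by_cases h1 : s = s'
  · subst h1
    by_cases h2 : r = r'
    · subst h2
      have h3 : u ≠ u' := fun h3 => h ⟨rfl, rfl, h3⟩
      obtain ⟨l, hl⟩ := Function.ne_iff.1 h3
      refine ⟨-1, fun heq => hl ?_⟩
      have e1 : ((-1 : ZMod n) + (s : ZMod n)) = ((s - 1 : ℤ) : ZMod n) := by push_cast; ring
      have e2 : ((((-1 : ZMod n) + (s : ZMod n)).val : ℤ)) = s - 1 := by
        rw [e1]; exact hv _ (by omega) (by omega)
      have e3 : ((s - 1 - s : ℤ) / n) = -1 := by
        have : (s - 1 - s : ℤ) = -1 := by ring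
        rw [this]
        have hn : (0 : ℤ) < n := by omega
        rw [Int.ediv_eq_iff_of_pos hn]; omega
      have h4 := congrFun (congrArg Prod.snd heq) l
      simp only [wv, Pi.zero_apply] at h4
      rw [e2, e3] at h4
      push_cast at h4
      linear_combination -h4
    · obtain ⟨l, hl⟩ := Function.ne_iff.1 h2
      refine ⟨0, fun heq => hl ?_⟩
      have e2 : ((((0 : ZMod n) + (s : ZMod n)).val : ℤ)) = s := by
        rw [zero_add]; exact hv _ (by omega) (by omega)
      have h4 := congrFun (congrArg Prod.snd heq) l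
      simp only [wv, Pi.zero_apply] at h4
      rw [e2, sub_self, Int.zero_ediv] at h4
      push_cast at h4
      linear_combination h4
  · refine ⟨0, fun heq => h1 ?_⟩
    have e2 : ((((0 : ZMod n) + (s' : ZMod n)).val : ℤ)) = s' := by
      rw [zero_add]; exact hv _ (by omega) (by omega)
    have h4 := congrArg Prod.fst heq
    simp only [wv] at h4
    rw [e2] at h4
    have h5 := (ZMod.intCast_zmod_eq_zero_iff_dvd (s' - s) n).1 h4.symm
    have h6 := Int.eq_zero_of_abs_lt_dvd h5 (by rw [abs_lt]; omega)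
    omega

end Run7.h487.TC
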