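import Pool.Agent.Run7.h487.TC.B

/-!
Tiles in a cube: counting.
-/

set_option autoImplicit false

namespace Run7.h487.TC

open Finset

section rows

variable {X Y : Type} [Fintype X] [Fintype Y] [DecidableEq X] [DecidableEq Y]

lemma row_count (a b : Y) (h : a ≠ b) :
    9 * Fintype.card {f : Y → Fin 3 // ¬ (f a = 0 ∧ f b = 1)} ≤ 8 * 3 ^ Fintype.card Y := by
  have h1 : Fintype.card {f : Y → Fin 3 // ¬ (f a = 0 ∧ f b = 1)} =
      Fintype.card (Y → Fin 3) - Fintype.card {f : Y → Fin 3 // (f a = 0 ∧ f b = 1)} :=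
    Fintype.card_subtype_compl _
  have h2 : Fintype.card (Y → Fin 3) = 3 ^ Fintype.card Y := by simp
  have h3 : Fintype.card (Y → Fin 3) ≤
      Fintype.card ({f : Y → Fin 3 // (f a = 0 ∧ f b = 1)} × (Fin 3 × Fin 3)) := by
    refine Fintype.card_le_of_injective (fun f => (⟨Function.update (Function.update f a 0) b 1, ?_, ?_⟩,
      (f a, f b))) ?_
    · rw [Function.update_of_ne h, Function.update_self]
    · rw [Function.update_self]
    · intro f g hfg
      simp only [Prod.mk.injEq, Subtype.mk.injEq] at hfg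
      obtain ⟨e1, e2, e3⟩ := hfg
      funext y
      by_cases hb : y = b
      · rw [hb]; exact e3
      by_cases ha : y = a
      · rw [ha]; exact e2
      have := congrFun e1 y
      rwa [Function.update_of_ne hb, Function.update_of_ne ha, Function.update_of_ne hb,
        Function.update_of_ne ha] at this
  rw [Fintype.card_prod] at h3
  have h4 : Fintype.card (Fin 3 × Fin 3) = 9 := by simp
  rw [h4, h2] at h3
  rw [h1, h2]
  omega

lemma rows_count (a b : Y) (h : a ≠ b) :
    ((univ : Finset (X → Y → Fin 3)).filter (fun c => ∀ x, ¬ (c x a = 0 ∧ c x b = 1))).card *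
      9 ^ Fintype.card X ≤ 8 ^ Fintype.card X * 3 ^ (Fintype.card Y * Fintype.card X) := by
  rw [← Fintype.card_subtype]
  have e : {c : X → Y → Fin 3 // ∀ x, ¬ (c x a = 0 ∧ c x b = 1)} ≃
      (X → {f : Y → Fin 3 // ¬ (f a = 0 ∧ f b = 1)}) :=
    Equiv.subtypePiEquivPi (β := fun _ : X => Y → Fin 3) (p := fun _ (f : Y → Fin 3) => ¬ (f a = 0 ∧ f b = 1))
  rw [Fintype.card_congr e, Fintype.card_fun, ← mul_pow, pow_mul, ← mul_pow]
  apply Nat.pow_le_pow_left
  have := row_count a b h
  linarith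

end rows

variable {m n k : ℕ}

/-- the parameters of the lattices -/
abbrev Par (n k : ℕ) := Fin (n - 1) × (Fin k → ZMod n) × (Fin k → ZMod n)

/-- the transversal -/
noncomputable def SS [NeZero m] [NeZero n] (θ : Par n k) (c : C m n k) : Finset (V k) :=
  S ((θ.1 : ℕ) + 1 : ℤ) θ.2.1 θ.2.2 c

variable [NeZero m] [NeZero n]

open Classical in
lemma pair_count (θ θ' : Par n k) (h : θ ≠ θ') :
    ((univ : Finset (C m n k)).filter (fun c => ∃ c' : C m n k, SS θ c = SS θ' c')).card * 9 ^ m ≤
      8 ^ m * 3 ^ (n ^ (k + 1) * m) := by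
  obtain ⟨i, r, u⟩ := θ
  obtain ⟨i', r', u'⟩ := θ'
  have hi : ((i : ℕ) : ℤ) + 1 < n := by have := i.2; omega
  have hi' : ((i' : ℕ) : ℤ) + 1 < n := by have := i'.2; omega
  have hne : ¬ (((i : ℕ) : ℤ) + 1 = ((i' : ℕ) : ℤ) + 1 ∧ r = r' ∧ u = u') := by
    rintro ⟨h1, rfl, rfl⟩
    apply h
    have : i = i' := Fin.ext (by omega)
    rw [this]
  obtain ⟨y, hy⟩ := wv_ne (by omega) hi (by omega) hi' hne
  have h1 := rows_count (X := ZMod m) ((y, 0) : W n k)
    (wv n ((i : ℕ) + 1 : ℤ) r u ((i' : ℕ) + 1 : ℤ) r' u' y) hy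
  have h2 : Fintype.card (ZMod m) = m := ZMod.card m
  have h3 : Fintype.card (W n k) = n ^ (k + 1) := by
    rw [Fintype.card_prod, ZMod.card, Fintype.card_fun, ZMod.card, Fintype.card_fin, pow_succ]
    ring
  rw [h2, h3] at h1
  refine le_trans (Nat.mul_le_mul_right _ (Finset.card_le_card ?_)) h1
  intro c hc
  rw [Finset.mem_filter] at hc ⊢
  refine ⟨Finset.mem_univ _, fun x => ?_⟩
  obtain ⟨-, c', hc'⟩ := hc
  have h4 := bad hc' ((x, y, 0) : D m n k)
  rw [cl_E_one] at h4
  exact h4

open Classical in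
/-- the number of the transversals -/
lemma total_count (F : Finset (Finset (V k))) (hF : ∀ (θ : Par n k) (c : C m n k), SS θ c ∈ F) :
    (Fintype.card (Par n k) : ℝ) * 3 ^ (n ^ (k + 1) * m) *
      (1 - Fintype.card (Par n k) * (8 / 9) ^ m) ≤ F.card := by
  set N := n ^ (k + 1) * m with hN
  set P : Finset (Par n k × C m n k) := univ.filter fun p =>
    ∀ (θ' : Par n k) (c' : C m n k), SS p.1 p.2 = SS θ' c' → θ' = p.1 with hP
  set Q : Finset (Par n k × C m n k) := univ.filter fun p =>
    ¬ ∀ (θ' : Par n k) (c' : C m n k), SS p.1 p.2 = SS θ' c' → θ' = p.1 with hQ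
  have h1 : P.card ≤ F.card := by
    refine Finset.card_le_card_of_injOn (fun p => SS p.1 p.2) (fun p _ => hF _ _) ?_
    rintro ⟨θ, c⟩ hp ⟨θ', c'⟩ _ heq
    have hp := (Finset.mem_filter.1 (Finset.mem_coe.1 hp)).2
    have h2 := hp θ' c' heq
    simp only at h2
    subst h2
    have heq : SS θ' c = SS θ' c' := heq
    rw [S_inj heq]
  have h2 : P.card + Q.card = Fintype.card (Par n k) * 3 ^ N := by
    rw [hP, hQ, Finset.card_filter_add_card_filter_not, Finset.card_univ, Fintype.card_prod]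
    congr 1
    rw [Fintype.card_fun, Fintype.card_fun, Fintype.card_prod, ZMod.card, ZMod.card, Fintype.card_fun,
      ZMod.card, Fintype.card_fin, Fintype.card_fin, ← pow_mul, hN]
    congr 1
    ring
  have h3 : (Q.card : ℝ) ≤ Fintype.card (Par n k) * (Fintype.card (Par n k) *
      ((8 / 9) ^ m * 3 ^ N)) := by
    have hsub : Q ⊆ (univ : Finset (Par n k)).biUnion fun θ =>
        (univ.filter fun θ' => θ ≠ θ').biUnion fun θ' =>
          (univ.filter fun c : C m n k => ∃ c' : C m n k, SS θ c = SS θ' c').image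
            (fun c => ((θ, c) : Par n k × C m n k)) := by
      rintro ⟨θ, c⟩ hp
      have hp := (Finset.mem_filter.1 hp).2
      push Not at hp
      obtain ⟨θ', c', h4, h5⟩ := hp
      rw [Finset.mem_biUnion]
      refine ⟨θ, Finset.mem_univ _, ?_⟩
      rw [Finset.mem_biUnion]
      refine ⟨θ', Finset.mem_filter.2 ⟨Finset.mem_univ _, fun h => h5 h.symm⟩, ?_⟩
      exact Finset.mem_image.2 ⟨c, Finset.mem_filter.2 ⟨Finset.mem_univ _, c', h4⟩, rfl⟩
    have hone : ∀ θ θ' : Par n k, θ ≠ θ' →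
        (((univ.filter fun c : C m n k => ∃ c' : C m n k, SS θ c = SS θ' c').image
            (fun c => ((θ, c) : Par n k × C m n k))).card : ℝ) ≤ (8 / 9) ^ m * 3 ^ N := by
      intro θ θ' h
      have h5 := pair_count (m := m) θ θ' h
      have h6 : (((univ.filter fun c : C m n k => ∃ c' : C m n k, SS θ c = SS θ' c').card * 9 ^ m : ℕ)
          : ℝ) ≤ ((8 ^ m * 3 ^ N : ℕ) : ℝ) := by exact_mod_cast h5
      push_cast at h6
      have h7 : (((univ.filter fun c : C m n k => ∃ c' : C m n k, SS θ c = SS θ' c').image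
            (fun c => ((θ, c) : Par n k × C m n k))).card : ℝ) ≤
          ((univ.filter fun c : C m n k => ∃ c' : C m n k, SS θ c = SS θ' c').card : ℝ) := by
        exact_mod_cast Finset.card_image_le
      refine h7.trans ?_
      rw [div_pow, div_mul_eq_mul_div, le_div_iff₀ (by positivity)]
      exact h6
    have h8 : (Q.card : ℝ) ≤ ∑ θ : Par n k, ∑ θ' ∈ univ.filter (fun θ' : Par n k => θ ≠ θ'),
        (((univ.filter fun c : C m n k => ∃ c' : C m n k, SS θ c = SS θ' c').image
            (fun c => ((θ, c) : Par n k × C m n k))).card : ℝ) := by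
      have h9 := (Finset.card_le_card hsub).trans Finset.card_biUnion_le
      have h10 : (Q.card : ℝ) ≤ ∑ θ : Par n k, (((univ.filter fun θ' => θ ≠ θ').biUnion fun θ' =>
          (univ.filter fun c : C m n k => ∃ c' : C m n k, SS θ c = SS θ' c').image
            (fun c => ((θ, c) : Par n k × C m n k))).card : ℝ) := by exact_mod_cast h9
      refine h10.trans (Finset.sum_le_sum fun θ _ => ?_)
      exact_mod_cast Finset.card_biUnion_le
    refine h8.trans ?_
    calc _ ≤ ∑ θ : Par n k, (Fintype.card (Par n k) : ℝ) * ((8 / 9) ^ m * 3 ^ N) := by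
          refine Finset.sum_le_sum fun θ _ => ?_
          calc _ ≤ ∑ θ' ∈ univ.filter (fun θ' : Par n k => θ ≠ θ'), ((8 / 9 : ℝ) ^ m * 3 ^ N) :=
                Finset.sum_le_sum fun θ' hθ' => hone θ θ' (Finset.mem_filter.1 hθ').2
            _ ≤ (Fintype.card (Par n k) : ℝ) * ((8 / 9) ^ m * 3 ^ N) := by
                rw [Finset.sum_const, nsmul_eq_mul]
                apply mul_le_mul_of_nonneg_right _ (by positivity)
                exact_mod_cast Finset.card_le_univ _
      _ = _ := by rw [Finset.sum_const, nsmul_eq_mul, Finset.card_univ]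
  have h4 : (P.card : ℝ) + Q.card = Fintype.card (Par n k) * 3 ^ N := by exact_mod_cast h2
  have h5 : (P.card : ℝ) ≤ F.card := by exact_mod_cast h1
  have h6 : (Fintype.card (Par n k) : ℝ) * 3 ^ N * (1 - Fintype.card (Par n k) * (8 / 9) ^ m) =
      Fintype.card (Par n k) * 3 ^ N - Fintype.card (Par n k) * (Fintype.card (Par n k) *
      ((8 / 9) ^ m * 3 ^ N)) := by ring
  rw [h6]
  linarith

end Run7.h487.TC
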